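import Pool.Agent.H176Z.Main

set_option autoImplicit false

open Pool.Agent.H176Z

/-- For an alternating word `Q` in a finite Coxeter system, the Hasse diagram of the quotient of
`[e, ω]` by the subword complex equivalence is the graph of extremal increasing flips between
strongly acyclic facets. -/
theorem Pool.Agent.Results.MP_9e7791_co.AltExtremalFlips.result
    {B W : Type*} [Fintype B] [DecidableEq B] [Group W] [Finite W] {M : CoxeterMatrix B}
    (cs : CoxeterSystem M W) {m : ℕ} (Q : Fin m → B) (ω : W) (hA : Alternating cs Q)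
    (hne : ∃ I, IsFacet cs Q ω I) (L : Lattice {x // WeakLE cs x ω})
    (hL : ∀ x y, L.le x y ↔ WeakLE cs x.1 y.1) (c : @LatticeCon _ L)
    (hc : ∀ x y, c.r x y ↔ SCEquiv cs Q ω x.1 y.1) :
    ∃ e : Quotient c.toSetoid ≃
        {I // IsFacet cs Q ω I ∧ ∃ p, WeakLE cs p ω ∧ LinExt cs Q I p},
      (∀ x, LinExt cs Q (e (Quotient.mk c.toSetoid x)).1 x.1) ∧
      ∀ a b, QCov c a b ↔ ExtFlip cs Q (e a).1 (e b).1 :=
  exists_equiv hL hA hne c hc _ fun _ => Iff.rfl
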